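import Mathlib
import Pool.Agent.H104Z.Lift.Main

set_option autoImplicit false

/-! A finite lattice indexed diagram of simplicial monoids that lifts to regular rings but not to
C*-algebras of real rank zero. -/

namespace Pool.Agent.Results.MP_a87542_al.ARegularNotRealRankZero

open CategoryTheory Pool.Agent.H104Z.Lift

universe u

theorem result : ∃ (P : Type) (_ : Lattice P) (_ : Finite P) (M : P ⥤ AddCommMonCat.{0}),
    (∀ p, Simplicial (M.obj p)) ∧ LiftsReg.{0} M ∧ ¬ LiftsRR0.{u} M :=
  Pool.Agent.H104Z.Lift.main

end Pool.Agent.Results.MP_a87542_al.ARegularNotRealRankZero
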